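import Pool.Agent.X307.Vo.Det

/-!
# Alternating sums of products over blocks
-/

namespace Pool.Agent.X307.Vo

set_option linter.unusedSectionVars false

open Finset Equiv Pool.Agent.Y152.Pm

section

variable {ι : Type*} [Fintype ι] [DecidableEq ι] {R : Type*} [CommRing R] [Algebra ℚ R]

lemma inv_mem_symOn {S : Finset ι} {τ : Perm ι} (hτ : τ ∈ SymOn S) : τ⁻¹ ∈ SymOn S :=
  mem_symOn.2 fun z hz => by
    have := mem_symOn.1 hτ z hz
    calc τ⁻¹ z = τ⁻¹ (τ z) := by rw [this]
      _ = z := τ.symm_apply_apply z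

/-- Sums over the permutations supported on `S` as sums over the permutations of `Fin m`. -/
lemma sum_symOn_eq {m : ℕ} {S : Finset ι} (hS : S.card = m) (σ : Perm ι) :
    ∃ e : Fin m → ι, (∀ t, e t ∈ S) ∧ ∀ F : ι → ι → R,
      ∑ τ ∈ SymOn S, ∏ l ∈ S, F (σ (τ l)) l = ∑ ρ : Perm (Fin m), ∏ t, F (σ (e t)) (e (ρ t)) := by
  let e : Fin m ≃ {i // i ∈ S} := (Fintype.equivFinOfCardEq (by simp [hS])).symm
  refine ⟨fun t => e t, fun t => (e t).2, fun F => ?_⟩
  have h0 : ∑ τ ∈ SymOn S, ∏ l ∈ S, F (σ (τ l)) l =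
      ∑ τ ∈ SymOn S, ∏ l ∈ S, F (σ l) (τ l) := by
    refine sum_nbij' (fun τ => τ⁻¹) (fun τ => τ⁻¹) (fun τ hτ => inv_mem_symOn hτ)
      (fun τ hτ => inv_mem_symOn hτ) (fun τ _ => inv_inv τ) (fun τ _ => inv_inv τ) ?_
    intro τ hτ
    refine (prod_nbij' (fun i => τ⁻¹ i) (fun i => τ i) (fun i hi => apply_mem (inv_mem_symOn hτ) hi)
      (fun i hi => apply_mem hτ hi) (fun i _ => τ.apply_symm_apply i)
      (fun i _ => τ.symm_apply_apply i) fun i _ => ?_).symm
    have h6 : τ (τ⁻¹ i) = i := τ.apply_symm_apply i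
    rw [h6]
  rw [h0]
  have h1 : ∑ τ ∈ SymOn S, ∏ l ∈ S, F (σ l) (τ l) =
      ∑ τ : Perm {i // i ∈ S}, ∏ l : {i // i ∈ S}, F (σ l) (τ l) := by
    symm
    refine Finset.sum_bij (fun τ _ => Perm.ofSubtype τ) ?_ ?_ ?_ ?_
    · intro τ _
      exact mem_symOn.2 fun z hz => Perm.ofSubtype_apply_of_not_mem τ hz
    · intro τ _ ρ _ h5
      exact Perm.ofSubtype_injective h5
    · intro ρ hρ
      have h6 : ∀ z, z ∈ S ↔ ρ z ∈ S := by
        intro z
        refine ⟨fun hz => apply_mem hρ hz, fun hz => ?_⟩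
        by_contra hn
        rw [mem_symOn.1 hρ z hn] at hz
        exact hn hz
      refine ⟨ρ.subtypePerm (fun z => (h6 z).symm), mem_univ _, ?_⟩
      refine Perm.ofSubtype_subtypePerm (fun z => (h6 z).symm) fun z hz => ?_
      by_contra hn
      exact hz (mem_symOn.1 hρ z hn)
    · intro τ _
      rw [← Finset.prod_coe_sort S]
      refine Finset.prod_congr rfl fun l _ => ?_
      rw [Perm.ofSubtype_apply_coe]
  rw [h1]
  refine Fintype.sum_equiv (e.symm.permCongr) _ _ fun τ => ?_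
  refine Fintype.prod_equiv e.symm _ _ fun l => ?_
  rw [Equiv.permCongr_apply]
  simp

variable {J MX MY M : Type*} [Fintype J] [DecidableEq J] [AddCommGroup MX] [Module ℚ MX]
  [AddCommGroup MY] [Module ℚ MY] [AddCommGroup M] [Module ℚ M]

/-- The alternating sum for generators. -/
theorem alt_gen (X : ι → MX → R) (Y : ι → MY → R) (V : J → Set MX) (W : J → Set MY)
    (g h : J → ℕ)
    (hV : ∀ j, ∀ (p : Fin (g j + 1) → ι) (a : Fin (g j + 1) → MX), (∀ t, a t ∈ V j) →
      ∑ ρ : Perm (Fin (g j + 1)), ∏ t, X (p t) (a (ρ t)) = 0)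
    (hW : ∀ j, ∀ (p : Fin (h j + 1) → ι) (a : Fin (h j + 1) → MY), (∀ t, a t ∈ W j) →
      ∑ ρ : Perm (Fin (h j + 1)), ∏ t, Y (p t) (a (ρ t)) = 0)
    (hn : ∑ j, g j * h j < Fintype.card ι) (j : ι → J) (x : ι → MX) (y : ι → MY)
    (hx : ∀ l, x l ∈ V (j l)) (hy : ∀ l, y l ∈ W (j l)) :
    ∑ σ : Perm ι, (Perm.sign σ : ℤ) • ∏ l, (X (σ l) (x l) * Y (σ l) (y l)) = 0 := by
  obtain ⟨j0, hj0⟩ : ∃ j0, g j0 * h j0 + 1 ≤ (univ.filter fun l => j l = j0).card := by
    by_contra hcon
    push Not at hcon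
    have h1 : Fintype.card ι ≤ ∑ j0, g j0 * h j0 := by
      rw [← Finset.card_univ, Finset.card_eq_sum_card_fiberwise (f := j) (t := univ)
        (fun x _ => by simp)]
      exact Finset.sum_le_sum fun j0 _ => by have := hcon j0; omega
    omega
  have h1 := det_mul_zero (b := fun l i => X i (x l)) (c := fun l i => Y i (y l))
    (k := g j0) (l := h j0) hj0 ?_ ?_
  · rw [← h1]
    refine sum_congr rfl fun σ _ => ?_
    rw [mon, mon, ← Finset.prod_mul_distrib]
  · intro S hS σ hc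
    rw [sum_congr rfl fun τ hτ => mon_mul (fun l i => X i (x l)) σ hτ, ← sum_mul]
    obtain ⟨e, he, hF⟩ := sum_symOn_eq (R := R) hc σ
    have h2 := hF (fun p l => X p (x l))
    rw [h2, hV j0 (fun t => σ (e t)) (fun t => x (e t)) (fun t => ?_), zero_mul]
    have := hS (he t)
    rw [mem_filter] at this
    rw [← this.2]
    exact hx _
  · intro S hS σ hc
    rw [sum_congr rfl fun τ hτ => mon_mul (fun l i => Y i (y l)) σ hτ, ← sum_mul]
    obtain ⟨e, he, hF⟩ := sum_symOn_eq (R := R) hc σ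
    have h2 := hF (fun p l => Y p (y l))
    rw [h2, hW j0 (fun t => σ (e t)) (fun t => y (e t)) (fun t => ?_), zero_mul]
    have := hS (he t)
    rw [mem_filter] at this
    rw [← this.2]
    exact hy _

/-- A multilinear map which vanishes on tuples from a set vanishes on tuples from its span. -/
lemma multilinear_span {N : Type*} [AddCommGroup N] [Module ℚ N]
    (f : MultilinearMap ℚ (fun _ : ι => M) N) (G : Set M) (hf : ∀ a : ι → M, (∀ i, a i ∈ G) → f a = 0)
    (a : ι → M) (ha : ∀ i, a i ∈ Submodule.span ℚ G) : f a = 0 := by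
  have key : ∀ (s : Finset ι) (a : ι → M), (∀ i ∈ s, a i ∈ Submodule.span ℚ G) →
      (∀ i, i ∉ s → a i ∈ G) → f a = 0 := by
    intro s
    induction s using Finset.induction_on with
    | empty => exact fun a _ h => hf a fun i => h i (by simp)
    | insert i s his ih =>
      intro a h1 h2
      have h3 := h1 i (mem_insert_self _ _)
      have h4 : ∀ z ∈ Submodule.span ℚ G, f (Function.update a i z) = 0 := by
        intro z hz
        induction hz using Submodule.span_induction with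
        | mem z hz =>
          refine ih _ (fun k hk => ?_) (fun k hk => ?_)
          · have hki : k ≠ i := fun h => his (h ▸ hk)
            rw [Function.update_of_ne hki]
            exact h1 k (mem_insert_of_mem hk)
          · by_cases hki : k = i
            · subst hki
              rw [Function.update_self]
              exact hz
            · rw [Function.update_of_ne hki]
              exact h2 k (by simp [hki, hk])
        | zero => exact f.map_update_zero a i
        | add z w _ _ hz hw => rw [f.map_update_add, hz, hw, add_zero]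
        | smul c z _ hz => rw [f.map_update_smul, hz, smul_zero]
      have h5 := h4 (a i) h3
      rwa [Function.update_eq_self] at h5
  exact key univ a (fun i _ => ha i) (fun i hi => absurd (mem_univ i) hi)

/-- **The alternating sum over blocks vanishes.** -/
theorem alt_zero (φ : ι → M →ₗ[ℚ] R) (X : ι → MX → R) (Y : ι → MY → R) (V : J → Set MX)
    (W : J → Set MY) (g h : J → ℕ)
    (hV : ∀ j, ∀ (p : Fin (g j + 1) → ι) (a : Fin (g j + 1) → MX), (∀ t, a t ∈ V j) →
      ∑ ρ : Perm (Fin (g j + 1)), ∏ t, X (p t) (a (ρ t)) = 0)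
    (hW : ∀ j, ∀ (p : Fin (h j + 1) → ι) (a : Fin (h j + 1) → MY), (∀ t, a t ∈ W j) →
      ∑ ρ : Perm (Fin (h j + 1)), ∏ t, Y (p t) (a (ρ t)) = 0)
    (hn : ∑ j, g j * h j < Fintype.card ι) (z : MX → MY → M)
    (hz : ∀ i x y, φ i (z x y) = X i x * Y i y) (a : ι → M)
    (ha : ∀ l, a l ∈ Submodule.span ℚ {m | ∃ j, ∃ x ∈ V j, ∃ y ∈ W j, m = z x y}) :
    ∑ σ : Perm ι, (Perm.sign σ : ℤ) • ∏ i, φ i (a (σ i)) = 0 := by
  let f : MultilinearMap ℚ (fun _ : ι => M) R :=
    ∑ σ : Perm ι, (Perm.sign σ : ℤ) •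
      (MultilinearMap.mkPiAlgebra ℚ ι R).compLinearMap (fun l => φ (σ l))
  have hfa : ∀ a : ι → M, f a = ∑ σ : Perm ι, (Perm.sign σ : ℤ) • ∏ l, φ (σ l) (a l) := by
    intro a
    simp only [f, MultilinearMap.sum_apply, MultilinearMap.smul_apply,
      MultilinearMap.compLinearMap_apply, MultilinearMap.mkPiAlgebra_apply]
  have h1 : ∑ σ : Perm ι, (Perm.sign σ : ℤ) • ∏ i, φ i (a (σ i)) = f a := by
    rw [hfa]
    refine Fintype.sum_equiv (Equiv.inv (Perm ι)) _ _ fun σ => ?_
    have h2 : ∏ i, φ i (a (σ i)) = ∏ l, φ (σ⁻¹ l) (a l) := by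
      refine Fintype.prod_equiv σ _ _ fun i => ?_
      have h3 : σ⁻¹ (σ i) = i := σ.symm_apply_apply i
      rw [h3]
    rw [h2]
    simp
  rw [h1]
  refine multilinear_span f _ (fun a ha => ?_) a ha
  choose j x hx y hy e using ha
  rw [hfa, ← alt_gen X Y V W g h hV hW hn j x y hx hy]
  refine sum_congr rfl fun σ _ => ?_
  congr 1
  refine prod_congr rfl fun l _ => ?_
  rw [e l, hz]

end

end Pool.Agent.X307.Vo
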