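import Pool.Agent.Y152.AS.Defs
import Pool.Agent.Y110.Pow

/-!
# Voisin's conjecture on the zero-cycles of surfaces: definitions
-/

open CategoryTheory AlgebraicGeometry

universe u v w

namespace Pool.Agent.X307.Vo

open Pool.Agent.H914 VarClass Obj Pool.Agent.W492.BB Pool.Agent.Y152.AS Pool.Agent.Y110
  Pool.Agent.TH133

variable {k : Type u} [Field k] {𝒱 : VarClass k} (C : TheoryData.{u, v, 0} 𝒱 ℚ)

/-- The cycle `p_1^* a_1 · ⋯ · p_n^* a_n` on `P`, for morphisms `p_i : P ⟶ X` and cycles `a_i` on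
`X`. If `P = X^n` with its projections, this is the external product `a_1 × ⋯ × a_n`. -/
noncomputable def extProd {n : ℕ} {P X : 𝒱.Obj} (p : Fin n → (P ⟶ X)) (a : Fin n → C.A X) :
    C.A P := (List.ofFn fun i => C.up (p i) (a i)).prod

/-- The set `V` of cycles on `X` has symmetric dimension at most `g`: the symmetrized external
products `∑_σ a_{σ(0)} × ⋯ × a_{σ(g)}` of `g + 1` elements of `V` are zero in `CH(X^(g+1))_ℚ`.
For a curve `X` of genus `g` over an algebraically closed field this holds for the zero-cycles of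
degree zero, and more generally it holds for the zero-cycles of `B(k) ⊂ J(X)(k)` for every abelian
subvariety `B` of dimension `g` of the Jacobian of a curve `X` (Beauville). -/
def SymVanish {X : 𝒱.Obj} (V : Set (C.A X)) (g : ℕ) : Prop :=
  ∀ (P : 𝒱.Obj) (p : Fin (g + 1) → (P ⟶ X)), IsPow p → ∀ a : Fin (g + 1) → C.A X,
    (∀ i, a i ∈ V) → ∑ σ : Equiv.Perm (Fin (g + 1)), extProd C p (a ∘ σ) = 0

/-- Voisin's conjecture for the surface `S` and the integer `n`: the alternating sums
`∑_σ sgn(σ) a_{σ(1)} × ⋯ × a_{σ(n)}` are zero in `CH_0(S^n)_ℚ`, for all `a_1, …, a_n` in the Albanese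
kernel of `CH_0(S)_ℚ`. -/
def VoisinHolds (S : 𝒱.Obj) (n : ℕ) : Prop :=
  ∀ (P : 𝒱.Obj) (p : Fin n → (P ⟶ S)), IsPow p → ∀ a : Fin n → C.A S, (∀ i, InAlbKer C (a i)) →
    ∑ σ : Equiv.Perm (Fin n), (Equiv.Perm.sign σ : ℤ) • extProd C p (a ∘ σ) = 0

/-- The Albanese kernel of the surface `S` comes from a product of two curves in `m` pieces of
symmetric dimensions `g_j`, `h_j`: there are a variety `A` with a generically finite morphism
`f : A ⟶ S` of degree `N`, and with morphisms `u`, `v` to curves `D` and `E`, and sets `V_j`, `W_j`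
of zero-cycles on `D` and `E` of symmetric dimensions at most `g_j` and `h_j`, such that the
pull-backs to `A` of the elements of the Albanese kernel of `S` are in the span of the
`u^* x · v^* y` with `x ∈ V_j`, `y ∈ W_j` for some `j`. -/
def ComesFromCurves (S : 𝒱.Obj) {m : ℕ} (g h : Fin m → ℕ) : Prop :=
  ∃ (A D E : 𝒱.Obj) (f : A ⟶ S) (u : A ⟶ D) (v : A ⟶ E) (V : Fin m → Set (C.A D))
    (W : Fin m → Set (C.A E)) (N : ℚ),
    N ≠ 0 ∧ C.down f 1 = N • 1 ∧ (∀ j, SymVanish C (V j) (g j)) ∧ (∀ j, SymVanish C (W j) (h j)) ∧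
      ∀ a : C.A S, InAlbKer C a → C.up f a ∈ Submodule.span ℚ
        {c | ∃ j, ∃ x ∈ V j, ∃ y ∈ W j, c = C.mul (C.up u x) (C.up v y)}

/-- The zero-cycles of degree zero on `X`. -/
def degZero (X : 𝒱.Obj) : Set (C.A X) := {x | C.Deg X.dim x ∧ HasDegree C x 0}

/-- `D` is a curve whose zero-cycles of degree zero have symmetric dimension at most `g` (for
example a curve of genus `g` over an algebraically closed field). -/
def IsCurveOfGenus (D : 𝒱.Obj) (g : ℕ) : Prop := D.dim = 1 ∧ SymVanish C (degZero C D) g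

/-- The zero-cycles on `D × E` are sums of external products of zero-cycles on `D` and on `E` (over
an algebraically closed field this holds for all varieties, since the points of `D × E` are the
pairs of points). -/
def PointsAreProducts (D E : 𝒱.Obj) : Prop :=
  ∀ c : C.A (D.prod E), C.Deg (D.prod E).dim c → c ∈ Submodule.span ℚ
    {c | ∃ x y, C.Deg D.dim x ∧ C.Deg E.dim y ∧ c = C.mul (C.up (fst D E) x) (C.up (snd D E) y)}

end Pool.Agent.X307.Vo
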