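import Pool.Agent.Y152.Pm.Lem

/-!
# Determinants of products of entries of matrices with vanishing permanents
-/

namespace Pool.Agent.X307.Vo

set_option linter.unusedSectionVars false

open Finset Equiv Pool.Agent.Y152.Pm

variable {ι : Type*} [Fintype ι] [DecidableEq ι] {R : Type*} [CommRing R] [Algebra ℚ R]

/-- If the permanents of the submatrices with rows in the `(k + 1)`-subsets of `T` of `b` and with
rows in the `(l + 1)`-subsets of `T` of `c` vanish, then the determinant of the matrix
`(b_ij c_ij)` vanishes if `T` has at least `k l + 1` elements. -/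
theorem det_mul_zero {b c : ι → ι → R} {k l : ℕ} {T : Finset ι} (hk : k * l + 1 ≤ T.card)
    (hb : ∀ S ⊆ T, ∀ (σ : Perm ι), S.card = k + 1 → ∑ τ ∈ SymOn S, mon b (σ * τ) = 0)
    (hc : ∀ S ⊆ T, ∀ (σ : Perm ι), S.card = l + 1 → ∑ τ ∈ SymOn S, mon c (σ * τ) = 0) :
    ∑ σ : Perm ι, (Perm.sign σ : ℤ) • (mon b σ * mon c σ) = 0 := by
  classical
  let h : Perm ι → R := fun ρ => ∑ σ : Perm ι, (Perm.sign σ : ℤ) • (mon b (σ * ρ) * mon c σ)
  let h' : Perm ι → R := fun ρ => if ρ ∈ SymOn T then h ρ else 0
  have hmul : ∀ {S : Finset ι}, S ⊆ T → ∀ {τ : Perm ι}, τ ∈ SymOn S → ∀ x : Perm ι,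
      (x * τ ∈ SymOn T ↔ x ∈ SymOn T) := by
    intro S hST τ hτ x
    have h1 : ∀ z, z ∉ T → τ z = z := fun z hz => mem_symOn.1 hτ z fun h2 => hz (hST h2)
    constructor
    · intro h2
      refine mem_symOn.2 fun z hz => ?_
      have h3 := mem_symOn.1 h2 z hz
      change x (τ z) = z at h3
      rwa [h1 z hz] at h3
    · intro h2
      refine mem_symOn.2 fun z hz => ?_
      change x (τ z) = z
      rw [h1 z hz, mem_symOn.1 h2 z hz]
  have h1 := eq_zero_of_killed k l T h' hk ?_ ?_ 1
  · have h2 : (1 : Perm ι) ∈ SymOn T := mem_symOn.2 fun z _ => rfl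
    simpa [h', h, h2] using h1
  · intro S hST hS x
    by_cases hx : x ∈ SymOn T
    · have h2 : ∀ τ ∈ SymOn S, h' (x * τ) = h (x * τ) := fun τ hτ =>
        if_pos ((hmul hST hτ x).2 hx)
      rw [sum_congr rfl h2]
      simp only [h]
      rw [sum_comm]
      refine sum_eq_zero fun σ _ => ?_
      rw [← smul_sum, ← sum_mul]
      have h2 := hb S hST (σ * x) hS
      simp only [mul_assoc] at h2 ⊢
      rw [h2, zero_mul, smul_zero]
    · refine sum_eq_zero fun τ hτ => ?_
      exact if_neg fun h2 => hx ((hmul hST hτ x).1 h2)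
  · intro S hST hS x
    by_cases hx : x ∈ SymOn T
    · have h2 : ∀ τ ∈ SymOn S, (Perm.sign τ : ℤ) • h' (x * τ) =
          (Perm.sign τ : ℤ) • h (x * τ) := fun τ hτ => by
        rw [show h' (x * τ) = h (x * τ) from if_pos ((hmul hST hτ x).2 hx)]
      rw [sum_congr rfl h2]
      simp only [h, smul_sum]
      have h2 : ∀ τ ∈ SymOn S, ∑ σ : Perm ι, (Perm.sign τ : ℤ) • (Perm.sign σ : ℤ) •
          (mon b (σ * (x * τ)) * mon c σ) =
          ∑ σ : Perm ι, (Perm.sign σ : ℤ) • (mon b (σ * x) * mon c (σ * (x * τ⁻¹ * x⁻¹))) := by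
        intro τ _
        refine Fintype.sum_equiv (Equiv.mulRight (x * τ * x⁻¹)) _ _ fun σ => ?_
        rw [Equiv.coe_mulRight]
        have e1 : Perm.sign (σ * (x * τ * x⁻¹)) = Perm.sign τ * Perm.sign σ := by
          simp only [Perm.sign_mul, Perm.sign_inv]
          rw [mul_comm (Perm.sign x) (Perm.sign τ), mul_assoc (Perm.sign τ), Int.units_mul_self,
            mul_one, mul_comm]
        have e2 : σ * (x * τ * x⁻¹) * x = σ * (x * τ) := by group
        have e3 : σ * (x * τ * x⁻¹) * (x * τ⁻¹ * x⁻¹) = σ := by group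
        rw [e1, e2, e3, Units.val_mul, mul_smul]
      rw [sum_congr rfl h2, sum_comm]
      refine sum_eq_zero fun σ _ => ?_
      rw [← smul_sum, ← mul_sum]
      have h3 : ∑ τ ∈ SymOn S, mon c (σ * (x * τ⁻¹ * x⁻¹)) = 0 := by
        have hxT : S.map x.toEmbedding ⊆ T := by
          intro y hy
          rw [mem_map] at hy
          obtain ⟨z, hz, rfl⟩ := hy
          exact apply_mem hx (hST hz)
        have h4 := hc (S.map x.toEmbedding) hxT σ (by rw [card_map, hS])
        rw [sum_conj _ x] at h4
        have h5 : (S.map x.toEmbedding).map x⁻¹.toEmbedding = S := by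
          ext y
          simp only [mem_map, exists_exists_and_eq_and]
          constructor
          · rintro ⟨z, hz, rfl⟩
            change x⁻¹ (x z) ∈ S
            have h6 : x⁻¹ (x z) = z := x.symm_apply_apply z
            rw [h6]
            exact hz
          · intro hy
            exact ⟨y, hy, x.symm_apply_apply y⟩
        rw [h5] at h4
        rw [← h4]
        refine sum_nbij' (fun τ => τ⁻¹) (fun τ => τ⁻¹) ?_ ?_ ?_ ?_ ?_
        · intro τ hτ
          exact mem_symOn.2 fun z hz => by
            have := mem_symOn.1 hτ z hz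
            calc τ⁻¹ z = τ⁻¹ (τ z) := by rw [this]
              _ = z := τ.symm_apply_apply z
        · intro τ hτ
          exact mem_symOn.2 fun z hz => by
            have := mem_symOn.1 hτ z hz
            calc τ⁻¹ z = τ⁻¹ (τ z) := by rw [this]
              _ = z := τ.symm_apply_apply z
        · intro τ _
          exact inv_inv τ
        · intro τ _
          exact inv_inv τ
        · intro τ _
          rfl
      rw [h3, mul_zero, smul_zero]
    · refine sum_eq_zero fun τ hτ => ?_
      rw [show h' (x * τ) = 0 from if_neg fun h2 => hx ((hmul hST hτ x).1 h2), smul_zero]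

end Pool.Agent.X307.Vo
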