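import Pool.Agent.X307.Vo.Defs
import Pool.Agent.X307.Vo.Alg
import Pool.Agent.Y152.AS.Grp

/-!
# Voisin's conjecture for surfaces whose Albanese kernel comes from products of curves
-/

open CategoryTheory AlgebraicGeometry

universe u v w

namespace Pool.Agent.X307.Vo

open Pool.Agent.H914 VarClass Obj Pool.Agent.W492.BB Pool.Agent.Y152.AS Pool.Agent.Y110
  Pool.Agent.W550.Corr Pool.Agent.TH133

set_option linter.unusedSectionVars false

variable {k : Type u} [Field k] {𝒱 : VarClass k} {C : TheoryData.{u, v, 0} 𝒱 ℚ}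
  [hC : IsChowProj C] {X Y Z P Q S A : 𝒱.Obj}

lemma pull_extProd {n : ℕ} (q : Q ⟶ P) (p : Fin n → (P ⟶ X)) (a : Fin n → C.A X) :
    C.pull q (extProd C p a) = extProd C (fun i => q ≫ p i) a := by
  rw [extProd, extProd, map_list_prod, List.map_ofFn]
  congr 2
  funext i
  exact (C.pull_comp q (p i) (a i)).symm

lemma extProd_eq {n : ℕ} (p : Fin n → (P ⟶ X)) (a : Fin n → C.A X) :
    letI := chRing C P
    extProd C p a = ∏ i, C.pull (p i) (a i) := by
  letI := chRing C P
  rw [extProd, List.prod_ofFn]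

lemma exists_isPow (X : 𝒱.Obj) (n : ℕ) :
    ∃ (P : 𝒱.Obj) (p : Fin (n + 1) → (P ⟶ X)), IsPow p := by
  induction n with
  | zero => exact ⟨X, _, isPow_one X⟩
  | succ n ih =>
    obtain ⟨P, p, hp⟩ := ih
    exact ⟨X.prod P, _, hp.succ⟩

/-- the symmetrized products vanish for arbitrary morphisms -/
lemma SymVanish.all {V : Set (C.A X)} {g : ℕ} (h : SymVanish C V g)
    (p : Fin (g + 1) → (P ⟶ X)) (a : Fin (g + 1) → C.A X) (ha : ∀ i, a i ∈ V) :
    ∑ σ : Equiv.Perm (Fin (g + 1)), extProd C p (a ∘ σ) = 0 := by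
  obtain ⟨Q, q, hq⟩ := exists_isPow X g
  obtain ⟨r, hr⟩ := hq.exists_lift P p
  have h1 := congrArg (C.pull r) (h Q q hq a ha)
  rw [map_sum, map_zero] at h1
  rw [← h1]
  refine Finset.sum_congr rfl fun σ _ => ?_
  rw [pull_extProd]
  congr 1
  funext i
  exact (hr i).symm

/-- push-forward of the unit along the power of a morphism -/
lemma push_pow_one (f : A ⟶ S) {N : ℚ} (hf : C.push f 1 = N • 1) (n : ℕ) :
    ∀ {P Q : 𝒱.Obj} (p : Fin (n + 1) → (P ⟶ A)) (q : Fin (n + 1) → (Q ⟶ S)), IsPow p → IsPow q →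
      ∀ r : P ⟶ Q, (∀ i, r ≫ q i = p i ≫ f) → C.push r 1 = N ^ (n + 1) • 1 := by
  induction n with
  | zero =>
    intro P Q p q hp hq r hr
    obtain ⟨p', hp'⟩ := hp.exists_lift A (fun _ => 𝟙 A)
    have i1 : p' ≫ p 0 = 𝟙 A := hp' 0
    have i2 : p 0 ≫ p' = 𝟙 P := by
      apply hp.ext
      intro i
      obtain rfl : i = 0 := Fin.ext (by omega)
      rw [Category.assoc, i1, Category.comp_id, Category.id_comp]
    obtain ⟨q', hq'⟩ := hq.exists_lift S (fun _ => 𝟙 S)
    have j1 : q' ≫ q 0 = 𝟙 S := hq' 0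
    have j2 : q 0 ≫ q' = 𝟙 Q := by
      apply hq.ext
      intro i
      obtain rfl : i = 0 := Fin.ext (by omega)
      rw [Category.assoc, j1, Category.comp_id, Category.id_comp]
    have e1 : r = p 0 ≫ f ≫ q' := by
      rw [← Category.assoc, ← hr 0, Category.assoc, j2, Category.comp_id]
    rw [e1, C.push_comp, C.push_comp, ← pull_iso C p' (p 0) i1 i2, map_one, hf, map_smul,
      ← pull_iso C (q 0) q' j2 j1, map_one, zero_add, pow_one]
  | succ n ih =>
    intro P Q p q hp hq r hr
    obtain ⟨P', p', hp'⟩ := exists_isPow A n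
    obtain ⟨Q', q', hq'⟩ := exists_isPow S n
    obtain ⟨r', hr'⟩ := hq'.exists_lift P' (fun i => p' i ≫ f)
    have hP := hp'.succ
    have hQ := hq'.succ
    -- the two powers
    obtain ⟨a, ha⟩ := hp.exists_lift _ (consPr p')
    obtain ⟨a', ha'⟩ := hP.exists_lift _ p
    have a1 : a ≫ a' = 𝟙 _ := hP.ext _ _ _ fun i => by
      rw [Category.assoc, ha', ha, Category.id_comp]
    have a2 : a' ≫ a = 𝟙 _ := hp.ext _ _ _ fun i => by
      rw [Category.assoc, ha, ha', Category.id_comp]
    obtain ⟨b, hb⟩ := hq.exists_lift _ (consPr q')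
    obtain ⟨b', hb'⟩ := hQ.exists_lift _ q
    have b1 : b ≫ b' = 𝟙 _ := hQ.ext _ _ _ fun i => by
      rw [Category.assoc, hb', hb, Category.id_comp]
    have b2 : b' ≫ b = 𝟙 _ := hq.ext _ _ _ fun i => by
      rw [Category.assoc, hb, hb', Category.id_comp]
    have e1 : r = a' ≫ prodMap f r' ≫ b := by
      apply hq.ext
      intro i
      rw [hr, Category.assoc, Category.assoc, hb]
      refine Fin.cases ?_ (fun i => ?_) i
      · rw [consPr_zero, prodMap_fst, ← Category.assoc, ← consPr_zero (X := A) p', ha']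
      · rw [consPr_succ, prodMap_snd_assoc, hr', ← Category.assoc (snd A P'), ← consPr_succ,
          ← Category.assoc, ha']
    have e2 : prodMap f r' = prodMap f (𝟙 P') ≫ prodMap (𝟙 S) r' := by
      rw [prodMap_comp, Category.comp_id, Category.id_comp]
    have e3 : C.push (prodMap f (𝟙 P')) 1 = N • 1 := by
      have h1 := C.base_fst f P' (1 : C.A A)
      rw [hf, map_smul, map_one (C.pull _), map_one (C.pull _)] at h1
      exact h1.symm
    have e4 : C.push (prodMap (𝟙 S) r') 1 = N ^ (n + 1) • 1 := by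
      have h1 := C.base_snd r' S (1 : C.A P')
      rw [ih p' q' hp' hq' r' hr', map_smul, map_one (C.pull _), map_one (C.pull _)] at h1
      exact h1.symm
    rw [e1, C.push_comp, C.push_comp, ← pull_iso C a a' a1 a2, map_one, e2, C.push_comp, e3,
      map_smul, e4, map_smul, map_smul, ← pull_iso C b' b b2 b1, map_one, smul_smul,
      ← pow_succ']

/-- **Voisin's conjecture** for surfaces whose Albanese kernel comes from products of curves. -/
theorem voisin_of_curves {m : ℕ} {g h : Fin m → ℕ} (hS : ComesFromCurves C S g h) {n : ℕ}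
    (hn : ∑ j, g j * h j < n) : VoisinHolds C S n := by
  obtain ⟨A, D, E, f, u, v, V, W, N, hN, hf, hV, hW, hF⟩ := hS
  obtain ⟨n, rfl⟩ : ∃ n', n = n' + 1 := ⟨n - 1, by omega⟩
  intro Q q hq a ha
  obtain ⟨P, p, hp⟩ := exists_isPow A n
  obtain ⟨r, hr⟩ := hq.exists_lift P (fun i => p i ≫ f)
  have hr1 := push_pow_one f hf n p q hp hq r hr
  -- the pull-back to `P` vanishes
  have h1 : C.pull r (∑ σ : Equiv.Perm (Fin (n + 1)),
      (Equiv.Perm.sign σ : ℤ) • extProd C q (a ∘ σ)) = 0 := by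
    letI := chRing C P
    have h2 := alt_zero (R := C.A P) (fun i => (C.pull (p i)).toLinearMap)
      (fun i x => C.pull (p i ≫ u) x) (fun i y => C.pull (p i ≫ v) y) V W g h
      (fun j s x hx => ?_) (fun j s y hy => ?_) (by rwa [Fintype.card_fin])
      (fun x y => C.pull u x * C.pull v y) (fun i x y => ?_) (fun i => C.pull f (a i))
      (fun l => hF (a l) (ha l))
    · rw [map_sum, ← h2]
      refine Finset.sum_congr rfl fun σ _ => ?_
      rw [map_zsmul, pull_extProd, extProd_eq]
      congr 1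
      refine Finset.prod_congr rfl fun i _ => ?_
      rw [hr, C.pull_comp]
      rfl
    · have h3 := (hV j).all (fun t => p (s t) ≫ u) x hx
      rw [← h3]
      refine Finset.sum_congr rfl fun σ _ => ?_
      rw [extProd_eq]
      rfl
    · have h3 := (hW j).all (fun t => p (s t) ≫ v) y hy
      rw [← h3]
      refine Finset.sum_congr rfl fun σ _ => ?_
      rw [extProd_eq]
      rfl
    · change C.pull (p i) (C.pull u x * C.pull v y) = _
      rw [map_mul, ← C.pull_comp, ← C.pull_comp]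
  -- back to `Q`
  have h2 := C.proj_right r 1 (∑ σ : Equiv.Perm (Fin (n + 1)),
      (Equiv.Perm.sign σ : ℤ) • extProd C q (a ∘ σ))
  rw [h1, mul_zero, map_zero, hr1, smul_mul_assoc, one_mul] at h2
  exact (smul_eq_zero.1 h2.symm).resolve_left (pow_ne_zero _ hN)

end Pool.Agent.X307.Vo
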