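import Pool.Agent.X307.Vo.Main
import Pool.Agent.TH133.Ext
import Pool.Agent.Y148.BB.Corr

/-!
# Voisin's conjecture for products of curves
-/

open CategoryTheory AlgebraicGeometry

universe u v w

namespace Pool.Agent.X307.Vo

open Pool.Agent.H914 VarClass Obj Pool.Agent.W492.BB Pool.Agent.Y152.AS Pool.Agent.Y110
  Pool.Agent.W550.Corr Pool.Agent.TH133

set_option linter.unusedSectionVars false

variable {k : Type u} [Field k] {𝒱 : VarClass k} {C : TheoryData.{u, v, 0} 𝒱 ℚ}
  [hC : IsChowProj C] {X Y Z P Q S A D E : 𝒱.Obj}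

lemma degCast {X : 𝒱.Obj} {i j : ℤ} (h : i = j) {z : C.A X} (hz : z ∈ C.gr X i) :
    z ∈ C.gr X j := h ▸ hz

lemma push_fst_ext (x : C.A D) {y : C.A E} {e : ℚ} (he : HasDegree C y e) :
    C.push (fst D E) (C.ext x y) = e • x := by
  rw [TheoryData.ext, C.proj_left, (he D).2, mul_smul_comm, mul_one]

lemma push_snd_ext {x : C.A D} {d : ℚ} (hd : HasDegree C x d) (y : C.A E) :
    C.push (snd D E) (C.ext x y) = d • y := by
  rw [TheoryData.ext, C.proj_right, (hd E).1, smul_mul_assoc, one_mul]

lemma ext_add_left (x x' : C.A D) (y : C.A E) : C.ext (x + x') y = C.ext x y + C.ext x' y := by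
  rw [TheoryData.ext, map_add, add_mul]; rfl

lemma ext_add_right (x : C.A D) (y y' : C.A E) : C.ext x (y + y') = C.ext x y + C.ext x y' := by
  rw [TheoryData.ext, map_add, mul_add]; rfl

lemma ext_smul_left (c : ℚ) (x : C.A D) (y : C.A E) : C.ext (c • x) y = c • C.ext x y := by
  rw [TheoryData.ext, map_smul, smul_mul_assoc]; rfl

lemma ext_smul_right (c : ℚ) (x : C.A D) (y : C.A E) : C.ext x (c • y) = c • C.ext x y := by
  rw [TheoryData.ext, map_smul, mul_smul_comm]; rfl

lemma ext_sub_left (x x' : C.A D) (y : C.A E) : C.ext (x - x') y = C.ext x y - C.ext x' y := by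
  rw [TheoryData.ext, map_sub, sub_mul]; rfl

lemma ext_sub_right (x : C.A D) (y y' : C.A E) : C.ext x (y - y') = C.ext x y - C.ext x y' := by
  rw [TheoryData.ext, map_sub, mul_sub]; rfl

/-- The operator which removes the degenerate part. -/
noncomputable def red (o : C.A D) (o' : C.A E) (c : C.A (D.prod E)) : C.A (D.prod E) :=
  c - C.ext (C.push (fst D E) c) o' - C.ext o (C.push (snd D E) c) +
    C.ext o (C.push (snd D E) (C.pull (fst D E) (C.push (fst D E) c)) * o')

lemma red_add (o : C.A D) (o' : C.A E) (c c' : C.A (D.prod E)) :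
    red o o' (c + c') = red o o' c + red o o' c' := by
  simp only [red, map_add, ext_add_left, ext_add_right, add_mul]
  abel

lemma red_smul (o : C.A D) (o' : C.A E) (r : ℚ) (c : C.A (D.prod E)) :
    red o o' (r • c) = r • red o o' c := by
  simp only [red, map_smul, ext_smul_left, ext_smul_right, smul_mul_assoc, smul_add, smul_sub]

lemma red_zero (o : C.A D) (o' : C.A E) : red o o' (0 : C.A (D.prod E)) = 0 := by
  have := red_smul o o' 0 (0 : C.A (D.prod E))
  rwa [zero_smul, zero_smul] at this

lemma hasDegree_sub {x y : C.A X} {q r : ℚ} (hx : HasDegree C x q) (hy : HasDegree C y r) :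
    HasDegree C (x - y) (q - r) := by
  intro Y
  obtain ⟨a, b⟩ := hx Y
  obtain ⟨c, d⟩ := hy Y
  refine ⟨?_, ?_⟩
  · rw [map_sub, map_sub, a, c, sub_smul]
  · rw [map_sub, map_sub, b, d, sub_smul]

lemma hasDegree_smul (c : ℚ) {x : C.A X} {q : ℚ} (hx : HasDegree C x q) :
    HasDegree C (c • x) (c * q) := by
  intro Y
  obtain ⟨a, b⟩ := hx Y
  refine ⟨?_, ?_⟩
  · rw [map_smul, map_smul, a, mul_smul]
  · rw [map_smul, map_smul, b, mul_smul]

lemma red_ext {o : C.A D} {o' : C.A E} (x : C.A D) (y : C.A E) {d e : ℚ} (hd : HasDegree C x d)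
    (he : HasDegree C y e) : red o o' (C.ext x y) = C.ext (x - d • o) (y - e • o') := by
  rw [red, push_fst_ext x he, push_snd_ext hd y, map_smul, map_smul, (hd E).1]
  simp only [ext_sub_left, ext_sub_right, ext_smul_left, ext_smul_right, smul_mul_assoc, one_mul,
    smul_smul, smul_sub]
  rw [mul_comm e d]
  abel

/-- **The Albanese kernel of a product of curves** is spanned by products of zero-cycles of degree
zero. -/
theorem albKer_prod (hD : D.dim = 1) (hE : E.dim = 1) (hp : PointsAreProducts C D E)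
    {c : C.A (D.prod E)} (hc : InAlbKer C c) : c ∈ Submodule.span ℚ
      {c | ∃ x ∈ degZero C D, ∃ y ∈ degZero C E,
        c = C.mul (C.up (fst D E) x) (C.up (snd D E) y)} := by
  obtain ⟨o, ho, ho1, ho2⟩ := (inferInstance : IsChow C).exists_deg_one D
  obtain ⟨o', ho', ho1', ho2'⟩ := (inferInstance : IsChow C).exists_deg_one E
  have hod : HasDegree C o 1 := fun Y => by
    rw [one_smul]; exact ⟨ho2 Y, ho1 Y⟩
  have hod' : HasDegree C o' 1 := fun Y => by
    rw [one_smul]; exact ⟨ho2' Y, ho1' Y⟩
  -- the push-forwards of `c` vanish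
  have h1 : C.push (fst D E) c = 0 := by
    rw [← C.act_graph]
    refine hc.act_eq_zero D _ ?_
    have := C.push_mem (Obj.lift (𝟙 (D.prod E)) (fst D E)) (C.one_mem (D.prod E))
    refine degCast ?_ this
    rw [dim_prod, dim_prod, hD, hE]; norm_num
  have h2 : C.push (snd D E) c = 0 := by
    rw [← C.act_graph]
    refine hc.act_eq_zero E _ ?_
    have := C.push_mem (Obj.lift (𝟙 (D.prod E)) (snd D E)) (C.one_mem (D.prod E))
    refine degCast ?_ this
    rw [dim_prod, dim_prod, hD, hE]; norm_num
  have h3 : red o o' c = c := by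
    rw [red, h1, h2, map_zero, map_zero, zero_mul, C.ext_zero_left, C.ext_zero_right, sub_zero,
      sub_zero, add_zero]
  rw [← h3]
  have h4 := hp c hc.deg
  clear h1 h2 h3 hc
  induction h4 using Submodule.span_induction with
  | mem c hc =>
    obtain ⟨x, y, hx, hy, rfl⟩ := hc
    obtain ⟨d, hd⟩ := exists_hasDegree hx
    obtain ⟨e, he⟩ := exists_hasDegree hy
    have h5 : red o o' (C.mul (C.up (fst D E) x) (C.up (snd D E) y)) =
        C.ext (x - d • o) (y - e • o') := red_ext x y hd he
    rw [h5]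
    refine Submodule.subset_span ⟨_, ⟨?_, ?_⟩, _, ⟨?_, ?_⟩, rfl⟩
    · exact Submodule.sub_mem _ hx (Submodule.smul_mem _ _ ho)
    · have := hasDegree_sub hd (hasDegree_smul d hod)
      rwa [mul_one, sub_self] at this
    · exact Submodule.sub_mem _ hy (Submodule.smul_mem _ _ ho')
    · have := hasDegree_sub he (hasDegree_smul e hod')
      rwa [mul_one, sub_self] at this
  | zero => rw [red_zero]; exact Submodule.zero_mem _
  | add c c' _ _ h h' => rw [red_add]; exact Submodule.add_mem _ h h'
  | smul r c _ h => rw [red_smul]; exact Submodule.smul_mem _ _ h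

/-- A product of two curves satisfies the condition, with one piece. -/
theorem comesFromCurves_prod {g h : ℕ} (hD : IsCurveOfGenus C D g) (hE : IsCurveOfGenus C E h)
    (hp : PointsAreProducts C D E) :
    ComesFromCurves C (D.prod E) (fun _ : Fin 1 => g) (fun _ : Fin 1 => h) := by
  refine ⟨D.prod E, D, E, 𝟙 _, fst D E, snd D E, fun _ => degZero C D, fun _ => degZero C E, 1,
    one_ne_zero, ?_, fun _ => hD.2, fun _ => hE.2, fun a ha => ?_⟩
  · rw [one_smul]; exact C.push_id 1
  · have h1 : C.up (𝟙 (D.prod E)) a = a := C.pull_id a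
    rw [h1]
    refine Submodule.span_mono ?_ (albKer_prod hD.1 hE.1 hp ha)
    rintro c ⟨x, hx, y, hy, rfl⟩
    exact ⟨0, x, hx, y, hy, rfl⟩

/-- **Voisin's conjecture for products of curves.** -/
theorem voisin_prod {g h : ℕ} (hD : IsCurveOfGenus C D g) (hE : IsCurveOfGenus C E h)
    (hp : PointsAreProducts C D E) {n : ℕ} (hn : g * h < n) : VoisinHolds C (D.prod E) n :=
  voisin_of_curves (comesFromCurves_prod hD hE hp) (by simpa using hn)

end Pool.Agent.X307.Vo
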